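import Pool.Agent.Mob.Stmts3

/-!
# Module CTH: the Combes-Thomas estimate
-/

set_option autoImplicit false

open MeasureTheory ProbabilityTheory Function

open scoped ENNReal BigOperators InnerProductSpace

noncomputable section

namespace Pool.Agent.Mob.H69

open Pool.Agent.Anderson Pool.Agent.Loc Pool.Agent.Helper54.Bal Pool.Agent.Mob

variable {d : ℕ}

theorem norm_mulOp_le (m : Site d → ℂ) (M : ℝ) (hm : ∀ x, ‖m x‖ ≤ M) (f : L2 d) :
    ‖mulOp m M hm f‖ ≤ |M| * ‖f‖ := by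
  refine ((mulOp m M hm).le_opNorm f).trans ?_
  apply mul_le_mul_of_nonneg_right _ (norm_nonneg f)
  exact LinearMap.mkContinuous_norm_le _ (abs_nonneg _) _

theorem ct_core (V : Site d → ℝ) {z : ℂ} {η : ℝ} (hη : 0 < η) (hz : z.im = η)
    (w : Site d → ℝ) (M q : ℝ) (hw : ∀ x, 0 < w x) (hM : ∀ x, w x ≤ M) (hq : 0 ≤ q)
    (hr : ∀ x y, sd x y ≤ 1 → |1 - w x / w y| ≤ q) (h2 : 2 * d * q ≤ η / 2) (hw0 : w 0 = 1)
    (s : Finset (Site d)) :
    ∑ x ∈ s, w x ^ 2 * ‖G V z (del 0) x‖ ^ 2 ≤ 4 / η ^ 2 := by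
  have hzi : z.im ≠ 0 := by rw [hz]; exact hη.ne'
  obtain ⟨g, hg⟩ : ∃ g : L2 d, g = G V z (del 0) := ⟨_, rfl⟩
  rw [← hg]
  have hb : ∀ x, ‖((w x : ℝ) : ℂ)‖ ≤ M := fun x => by
    rw [Complex.norm_real, Real.norm_of_nonneg (hw x).le]; exact hM x
  obtain ⟨v, hv⟩ : ∃ v : L2 d, v = mulOp (fun x => ((w x : ℝ) : ℂ)) M hb g := ⟨_, rfl⟩
  have hvx : ∀ x, v x = (w x : ℂ) * g x := fun x => by rw [hv]; exact mulOp_apply _ _ _ _ _
  have hp : ∀ i : Fin d, ∀ x : Site d,
      ‖((1 - w x / w (x + Pi.single i 1) : ℝ) : ℂ)‖ ≤ q := fun i x => by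
    rw [Complex.norm_real]; exact hr _ _ (sd_add_single_le x i)
  have hm : ∀ i : Fin d, ∀ x : Site d,
      ‖((1 - w x / w (x - Pi.single i 1) : ℝ) : ℂ)‖ ≤ q := fun i x => by
    rw [Complex.norm_real]; exact hr _ _ (sd_sub_single_le x i)
  obtain ⟨r, hrdef⟩ : ∃ r : L2 d, r = ∑ i : Fin d,
      (mulOp (fun x => ((1 - w x / w (x + Pi.single i 1) : ℝ) : ℂ)) q (hp i)
        (shift (Pi.single i 1) v) +
      mulOp (fun x => ((1 - w x / w (x - Pi.single i 1) : ℝ) : ℂ)) q (hm i)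
        (shift (-Pi.single i 1) v)) := ⟨_, rfl⟩
  have hrn : ‖r‖ ≤ η / 2 * ‖v‖ := by
    rw [hrdef]
    refine (norm_sum_le _ _).trans ?_
    calc _ ≤ ∑ _i : Fin d, 2 * q * ‖v‖ := by
          apply Finset.sum_le_sum
          intro i _
          refine (norm_add_le _ _).trans ?_
          have e1 := norm_mulOp_le _ q (hp i) (shift (Pi.single i 1) v)
          have e2 := norm_mulOp_le _ q (hm i) (shift (-Pi.single i 1) v)
          rw [LinearIsometry.norm_map, abs_of_nonneg hq] at e1 e2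
          linarith
      _ = 2 * d * q * ‖v‖ := by
          rw [Finset.sum_const, Finset.card_univ, Fintype.card_fin, nsmul_eq_mul]; ring
      _ ≤ _ := mul_le_mul_of_nonneg_right h2 (norm_nonneg v)
  have heq : v = G V z (del 0 + r) := by
    apply G_unique hzi
    intro x
    have e1 := G_eq (V := V) hzi (del (0 : Site d)) x
    rw [← hg] at e1
    have e2 : r x = lap v x - (w x : ℂ) * lap g x := by
      rw [hrdef, coe_sum_apply]
      unfold lap
      rw [Finset.mul_sum, ← Finset.sum_sub_distrib]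
      apply Finset.sum_congr rfl
      intro i _
      rw [lp.coeFn_add, Pi.add_apply, mulOp_apply, mulOp_apply, shift_apply, shift_apply,
        ← sub_eq_add_neg, hvx, hvx]
      have n1 : ((w (x + Pi.single i 1) : ℝ) : ℂ) ≠ 0 := by exact_mod_cast (hw _).ne'
      have n2 : ((w (x - Pi.single i 1) : ℝ) : ℂ) ≠ 0 := by exact_mod_cast (hw _).ne'
      push_cast
      field_simp
      ring
    have e3 : (del (0 : Site d) : L2 d) x = (w x : ℂ) * (del (0 : Site d) : L2 d) x := by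
      rw [del_apply]
      by_cases h : x = 0
      · subst h; rw [if_pos rfl, hw0]; simp
      · rw [if_neg h, mul_zero]
    rw [lp.coeFn_add, Pi.add_apply, e2, e3, ← e1, hvx]
    ring
  have hn : ‖v‖ ≤ 2 / η := by
    have e1 := (isRes_G V).norm_le hzi (del 0 + r)
    rw [← heq, hz, abs_of_pos hη] at e1
    have e2 := norm_add_le (del (0 : Site d)) r
    rw [norm_del] at e2
    rw [le_div_iff₀ hη]
    nlinarith
  calc ∑ x ∈ s, w x ^ 2 * ‖g x‖ ^ 2 = ∑ x ∈ s, ‖v x‖ ^ 2 := by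
        apply Finset.sum_congr rfl
        intro x _
        rw [hvx, norm_mul, mul_pow, Complex.norm_real, Real.norm_of_nonneg (hw x).le]
    _ ≤ ∑' x, ‖v x‖ ^ 2 := (L2.summable_sq v).sum_le_tsum s fun x _ => by positivity
    _ = ‖v‖ ^ 2 := (L2.norm_sq v).symm
    _ ≤ (2 / η) ^ 2 := pow_le_pow_left₀ (norm_nonneg v) hn 2
    _ = 4 / η ^ 2 := by ring

theorem abs_one_sub_exp_le (t : ℝ) : |1 - Real.exp t| ≤ Real.exp |t| - 1 := by
  rcases le_total 0 t with h | h
  · have := Real.one_le_exp h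
    rw [abs_of_nonneg h, abs_of_nonpos (by linarith)]
    linarith
  · have h1 : Real.exp t ≤ 1 := Real.exp_le_one_iff.2 h
    have h2 := Real.add_one_le_exp t
    have h3 := Real.add_one_le_exp (-t)
    rw [abs_of_nonpos h, abs_of_nonneg (by linarith)]
    linarith

/-- CTH -/
theorem cth : CthStmt := by
  intro d V η E a hη ha h2
  rw [ENNReal.tsum_eq_iSup_sum]
  apply iSup_le
  intro s
  obtain ⟨m, hm⟩ : ∃ m : ℕ, ∀ u ∈ s, sd 0 u ≤ m :=
    ⟨s.sup fun u => sd 0 u, fun u hu => Finset.le_sup (f := fun u => sd 0 u) hu⟩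
  have hcore := ct_core V hη (zz_im η E) (fun x => Real.exp (a * min (sd 0 x : ℝ) m))
    (Real.exp (a * m)) (Real.exp a - 1) (fun x => Real.exp_pos _)
    (fun x => Real.exp_le_exp.2 (mul_le_mul_of_nonneg_left (min_le_right _ _) ha))
    (by have := Real.one_le_exp ha; linarith)
    (fun x y hxy => by
      rw [← Real.exp_sub, ← mul_sub]
      refine (abs_one_sub_exp_le _).trans ?_
      have h1 : |a * (min (sd 0 x : ℝ) m - min (sd 0 y : ℝ) m)| ≤ a := by
        rw [abs_mul, abs_of_nonneg ha]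
        have h3 : |min (sd 0 x : ℝ) m - min (sd 0 y : ℝ) m| ≤ 1 := by
          have h4 := abs_min_sub_min_le_max (sd 0 x : ℝ) m (sd 0 y : ℝ) m
          rw [sub_self, abs_zero, max_eq_left (abs_nonneg _)] at h4
          refine h4.trans ?_
          have h5 := sd_triangle 0 x y
          have h6 := sd_triangle 0 y x
          rw [sd_comm y x] at h6
          have h7 : (sd 0 x : ℝ) ≤ sd 0 y + 1 := by exact_mod_cast h6.trans (by omega)
          have h8 : (sd 0 y : ℝ) ≤ sd 0 x + 1 := by exact_mod_cast h5.trans (by omega)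
          rw [abs_le]
          constructor <;> linarith
        nlinarith
      have := Real.exp_le_exp.2 h1
      linarith)
    h2 (by simp [sd_self]) s
  rw [← ENNReal.ofReal_sum_of_nonneg (fun u _ => by positivity)]
  apply ENNReal.ofReal_le_ofReal
  refine le_trans (le_of_eq ?_) hcore
  apply Finset.sum_congr rfl
  intro u hu
  have h1 : (sd 0 u : ℝ) ≤ m := by exact_mod_cast hm u hu
  rw [min_eq_left h1, ← Real.exp_nat_mul]
  congr 2
  push_cast
  ring

end Pool.Agent.Mob.H69
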