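import Pool.Agent.Mob.Stmts3

/-!
# Module INS: no spreading faster than any power (assembly of part H)
-/

set_option autoImplicit false

open MeasureTheory ProbabilityTheory Function Filter

open scoped ENNReal BigOperators InnerProductSpace

noncomputable section

namespace Pool.Agent.Mob.H69

open Pool.Agent.Anderson Pool.Agent.Loc Pool.Agent.Helper54.Bal Pool.Agent.Mob

/-! ### quantities smaller than every power -/

/-- smaller than every power of `T` -/
def Sm (f : ℝ → ℝ) : Prop := ∀ k : ℝ, ∀ᶠ T in atTop, f T ≤ T ^ (-k)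

theorem Sm.mono {f g : ℝ → ℝ} (hg : Sm g) (h : ∀ᶠ T in atTop, f T ≤ g T) : Sm f := by
  intro k
  filter_upwards [h, hg k] with T h1 h2
  exact h1.trans h2

theorem rp {T : ℝ} (hT : 0 < T) (k m : ℝ) : T ^ (-k) = T ^ m * T ^ (-(k + m)) := by
  rw [← Real.rpow_add hT]
  congr 1
  ring

theorem Sm.add {f g : ℝ → ℝ} (hf : Sm f) (hg : Sm g) : Sm (fun T => f T + g T) := by
  intro k
  filter_upwards [hf (k + 1), hg (k + 1), eventually_ge_atTop (2 : ℝ)] with T h1 h2 h3
  have hT : 0 < T := by linarith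
  have h4 := rp hT k 1
  rw [Real.rpow_one] at h4
  have h5 : 0 < T ^ (-(k + 1)) := Real.rpow_pos_of_pos hT _
  rw [h4]
  nlinarith

/-- multiplication by a constant times a power -/
theorem Sm.cpow {f : ℝ → ℝ} (hf : Sm f) (K : ℝ) (hK : 0 ≤ K) (m : ℕ) :
    Sm (fun T => K * T ^ m * f T) := by
  intro k
  filter_upwards [hf (k + 1 + m), eventually_ge_atTop (K + 1)] with T h1 h3
  have hT : 0 < T := by linarith
  have h4 := rp hT k (1 + m)
  rw [Real.rpow_add hT, Real.rpow_one, Real.rpow_natCast, ← add_assoc] at h4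
  have h5 : 0 < T ^ (-(k + 1 + m)) := Real.rpow_pos_of_pos hT _
  calc K * T ^ m * f T ≤ K * T ^ m * T ^ (-(k + 1 + m)) :=
        mul_le_mul_of_nonneg_left h1 (by positivity)
    _ ≤ T * T ^ m * T ^ (-(k + 1 + m)) := by
        apply mul_le_mul_of_nonneg_right _ h5.le
        apply mul_le_mul_of_nonneg_right _ (by positivity)
        linarith
    _ = T ^ (-k) := h4.symm

theorem Sm.mul {f g : ℝ → ℝ} (hf : Sm f) (hg : Sm g) (hf0 : ∀ᶠ T in atTop, 0 ≤ f T) :
    Sm (fun T => f T * g T) := by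
  intro k
  filter_upwards [hf k, hg 0, hf0, eventually_gt_atTop (0 : ℝ)] with T h1 h2 h3 hT
  rw [neg_zero, Real.rpow_zero] at h2
  calc f T * g T ≤ f T * 1 := mul_le_mul_of_nonneg_left h2 h3
    _ ≤ _ := by rwa [mul_one]

theorem Sm.sqrt {f : ℝ → ℝ} (hf : Sm f) : Sm (fun T => √(f T)) := by
  intro k
  filter_upwards [hf (2 * k), eventually_gt_atTop (0 : ℝ)] with T h1 hT
  apply Real.sqrt_le_iff.2
  refine ⟨(Real.rpow_pos_of_pos hT _).le, h1.trans (le_of_eq ?_)⟩
  rw [← Real.rpow_natCast, ← Real.rpow_mul hT.le]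
  congr 1
  push_cast
  ring

theorem sm_exp (c β : ℝ) (hc : 0 < c) (hβ : 0 < β) : Sm (fun T => Real.exp (-c * T ^ β)) := by
  intro k
  have h1 := (tendsto_rpow_mul_exp_neg_mul_atTop_nhds_zero (k / β) c hc).comp
    (tendsto_rpow_atTop hβ)
  have h2 := h1.eventually (gt_mem_nhds (show (0 : ℝ) < 1 by norm_num))
  filter_upwards [h2, eventually_gt_atTop (0 : ℝ)] with T h3 hT
  simp only [comp_apply] at h3
  rw [← Real.rpow_mul hT.le, mul_div_cancel₀ _ hβ.ne'] at h3
  rw [Real.rpow_neg hT.le, inv_eq_one_div, le_div_iff₀ (Real.rpow_pos_of_pos hT _)]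
  linarith

/-! ### the deterministic estimate -/

theorem cast_box (n d : ℕ) : (((2 * n + 1) ^ d : ℕ) : ℝ≥0∞) =
    ENNReal.ofReal ((2 * (n : ℝ) + 1) ^ d) := by
  rw [← ENNReal.ofReal_natCast]
  congr 1
  push_cast
  ring

theorem det_bound (hafv : AfvStmt) (hcth : CthStmt) (hdlb : DlbStmt) {d : ℕ} (V : Site d → ℝ)
    (μ h E η ac κ N q T R : ℝ) (L n : ℕ) (hd : 1 ≤ d) (hT : 0 < T) (hη : 0 < η) (h8 : 8 * η ≤ h)
    (hac : 0 ≤ ac) (hct : 2 * d * (Real.exp ac - 1) ≤ η / 2)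
    (hκ : κ = 2 * d * (2 * L + 1) ^ d * Real.exp (-μ * L)) (hκh : 2 * √κ ≤ h)
    (hN : N = (2 * n + 1) ^ d) (hLR : 2 * (L : ℝ) < R) (hLn : 2 * L ≤ n)
    (hgood : ∀ y ∈ box (0 : Site d) n, 2 * L < sd 0 y → ∀ F : ℝ, |F - E| ≤ 2 * h →
      FGood V L 0 F μ ∨ FGood V L y F μ)
    (hq : q = N * κ / η + 3 * ((N + 1) ^ 2 * κ / √κ + 4 * √κ / h ^ 2) +
      3 / h * Real.exp (-h / (4 * η)) + 4 * d / η ^ 2 * Real.exp (-ac * n)) :
    ∑' x : Site d, (if R ≤ (sd 0 x : ℝ) then
      ENNReal.ofReal (‖G V (zz η E) (del 0) x‖ ^ 2 / T) else 0) ≤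
      ENNReal.ofReal ((N * q ^ 2 + 4 / η ^ 2 * Real.exp (-ac * n)) / T) := by
  have hh : 0 < h := by linarith
  have hd0 : (0 : ℝ) < d := by exact_mod_cast hd
  have hκ0 : 0 < κ := by
    rw [hκ]
    positivity
  have hN0 : 0 ≤ N := by
    rw [hN]
    positivity
  have hq0 : 0 ≤ q := by
    rw [hq]
    positivity
  have hpt : ∀ y ∈ box (0 : Site d) n, R ≤ (sd 0 y : ℝ) → 2 * sd 0 y ≤ n →
      ‖G V (zz η E) (del 0) y‖ ≤ q := by
    intro y hy hR hyn
    have h1 : 2 * L < sd 0 y := by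
      have : (2 * (L : ℝ)) < sd 0 y := lt_of_lt_of_le hLR hR
      exact_mod_cast this
    have h2 := hafv d V η E ac n y hη hac hct hy
    have h3 := hdlb d V μ E h η (√κ) κ N L n y hd hη h8 (Real.sqrt_pos.2 hκ0) hκh hκ hN
      (by omega) (by omega) (hgood y hy h1)
    rw [hq]
    linarith
  have hsplit : ∀ x : Site d, (if R ≤ (sd 0 x : ℝ) then
      ENNReal.ofReal (‖G V (zz η E) (del 0) x‖ ^ 2 / T) else 0) ≤
      (if x ∈ box (0 : Site d) n then ENNReal.ofReal (q ^ 2 / T) else 0) +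
      ENNReal.ofReal (Real.exp (-ac * n) / T) *
        ENNReal.ofReal (Real.exp (2 * ac * sd 0 x) * ‖G V (zz η E) (del 0) x‖ ^ 2) := by
    intro x
    by_cases hR : R ≤ (sd 0 x : ℝ)
    · rw [if_pos hR]
      by_cases hx : 2 * sd 0 x ≤ n
      · have hxb : x ∈ box (0 : Site d) n := mem_box.2 (by omega)
        rw [if_pos hxb]
        refine le_trans ?_ le_self_add
        apply ENNReal.ofReal_le_ofReal
        have := hpt x hxb hR hx
        have h0 := norm_nonneg (G V (zz η E) (del 0) x)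
        gcongr
      · refine le_trans ?_ le_add_self
        rw [← ENNReal.ofReal_mul (by positivity)]
        apply ENNReal.ofReal_le_ofReal
        have h1 : (n : ℝ) ≤ 2 * sd 0 x := by exact_mod_cast (not_le.1 hx).le
        have h2 : 1 ≤ Real.exp (-ac * n) * Real.exp (2 * ac * sd 0 x) := by
          rw [← Real.exp_add]
          apply Real.one_le_exp
          nlinarith
        have h3 : 0 ≤ ‖G V (zz η E) (del 0) x‖ ^ 2 / T := by positivity
        calc ‖G V (zz η E) (del 0) x‖ ^ 2 / T = 1 * (‖G V (zz η E) (del 0) x‖ ^ 2 / T) :=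
              (one_mul _).symm
          _ ≤ (Real.exp (-ac * n) * Real.exp (2 * ac * sd 0 x)) *
              (‖G V (zz η E) (del 0) x‖ ^ 2 / T) := mul_le_mul_of_nonneg_right h2 h3
          _ = _ := by ring
    · rw [if_neg hR]
      exact zero_le
  refine (ENNReal.tsum_le_tsum hsplit).trans ?_
  rw [ENNReal.tsum_add, ENNReal.tsum_mul_left]
  have e1 : ∑' x : Site d, (if x ∈ box (0 : Site d) n then ENNReal.ofReal (q ^ 2 / T) else 0) =
      ENNReal.ofReal (N * (q ^ 2 / T)) := by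
    rw [tsum_eq_sum (s := box (0 : Site d) n) (fun x hx => if_neg hx),
      Finset.sum_congr rfl (fun x hx => if_pos hx), Finset.sum_const, card_box, nsmul_eq_mul,
      ENNReal.ofReal_mul hN0, hN, cast_box]
  rw [e1]
  have e2 := hcth d V η E ac hη hac hct
  calc ENNReal.ofReal (N * (q ^ 2 / T)) + ENNReal.ofReal (Real.exp (-ac * n) / T) *
        ∑' x : Site d, ENNReal.ofReal (Real.exp (2 * ac * sd 0 x) *
          ‖G V (zz η E) (del 0) x‖ ^ 2) ≤
      ENNReal.ofReal (N * (q ^ 2 / T)) + ENNReal.ofReal (Real.exp (-ac * n) / T) *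
        ENNReal.ofReal (4 / η ^ 2) := by gcongr
    _ = _ := by
        rw [← ENNReal.ofReal_mul (by positivity), ← ENNReal.ofReal_add (by positivity)
          (by positivity)]
        congr 1
        ring

/-! ### the probabilistic estimate -/

theorem prob_bound (htbp : TbpStmt) {d : ℕ} (ν : Measure ℝ) [IsProbabilityMeasure ν]
    (a b C μ : ℝ) (hB : BulkDecay d ν (Set.Icc a b) C μ) (L n : ℕ) :
    PP d ν {V | ¬ ∀ y ∈ box (0 : Site d) n, 2 * L < sd 0 y → ∀ F ∈ Set.Icc a b,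
      FGood V L 0 F μ ∨ FGood V L y F μ} ≤
      ENNReal.ofReal ((2 * n + 1) ^ d * (5 * |C| * (2 * L + 1) ^ (3 * d) *
        Real.exp (-μ * L))) := by
  have h1 : {V : Site d → ℝ | ¬ ∀ y ∈ box (0 : Site d) n, 2 * L < sd 0 y → ∀ F ∈ Set.Icc a b,
      FGood V L 0 F μ ∨ FGood V L y F μ} ⊆ ⋃ y ∈ (box (0 : Site d) n).filter
        (fun y => 2 * L < sd 0 y), {V | ∃ F ∈ Set.Icc a b, ¬ FGood V L 0 F μ ∧
          ¬ FGood V L y F μ} := by
    intro V hV
    have hV' : ¬ ∀ y ∈ box (0 : Site d) n, 2 * L < sd 0 y → ∀ F ∈ Set.Icc a b,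
      FGood V L 0 F μ ∨ FGood V L y F μ := hV
    push Not at hV'
    obtain ⟨y, hy, hyL, F, hF, h2, h3⟩ := hV'
    rw [Set.mem_iUnion₂]
    exact ⟨y, Finset.mem_filter.2 ⟨hy, hyL⟩, F, hF, h2, h3⟩
  refine (measure_mono h1).trans ((measure_biUnion_finset_le _ _).trans ?_)
  calc ∑ y ∈ (box (0 : Site d) n).filter (fun y => 2 * L < sd 0 y),
        PP d ν {V | ∃ F ∈ Set.Icc a b, ¬ FGood V L 0 F μ ∧ ¬ FGood V L y F μ} ≤
      ∑ _y ∈ (box (0 : Site d) n).filter (fun y => 2 * L < sd 0 y),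
        ENNReal.ofReal (5 * |C| * (2 * L + 1) ^ (3 * d) * Real.exp (-μ * L)) := by
        apply Finset.sum_le_sum
        intro y hy
        exact htbp d ν a b C μ hB L 0 y (Finset.mem_filter.1 hy).2
    _ ≤ ∑ _y ∈ box (0 : Site d) n,
        ENNReal.ofReal (5 * |C| * (2 * L + 1) ^ (3 * d) * Real.exp (-μ * L)) :=
        Finset.sum_le_sum_of_subset (Finset.filter_subset _ _)
    _ = _ := by
        rw [Finset.sum_const, card_box, nsmul_eq_mul, cast_box, ← ENNReal.ofReal_mul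
          (by positivity)]

theorem ins_T (htbp : TbpStmt) (htot : TotStmt) (hcth : CthStmt) (hafv : AfvStmt)
    (hdlb : DlbStmt) {d : ℕ} (ν : Measure ℝ) [IsProbabilityMeasure ν] (a b h C μ : ℝ)
    (hd : 1 ≤ d) (hB : BulkDecay d ν (Set.Icc (a - 2 * h) (b + 2 * h)) C μ)
    (ac κ N q T R : ℝ) (L n : ℕ) (hT : 0 < T) (h8 : 8 * (1 / T) ≤ h)
    (hac : 0 ≤ ac) (hct : 2 * d * (Real.exp ac - 1) ≤ 1 / T / 2)
    (hκ : κ = 2 * d * (2 * L + 1) ^ d * Real.exp (-μ * L)) (hκh : 2 * √κ ≤ h)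
    (hN : N = (2 * n + 1) ^ d) (hLR : 2 * (L : ℝ) < R) (hLn : 2 * L ≤ n)
    (hq : q = N * κ / (1 / T) + 3 * ((N + 1) ^ 2 * κ / √κ + 4 * √κ / h ^ 2) +
      3 / h * Real.exp (-h / (4 * (1 / T))) + 4 * d / (1 / T) ^ 2 * Real.exp (-ac * n)) :
    ∫⁻ V, spread V T R (Set.Ioo a b) ∂(PP d ν) ≤
      ENNReal.ofReal (Real.pi * (N * (5 * |C| * (2 * L + 1) ^ (3 * d) * Real.exp (-μ * L))) +
        max (b - a) 0 * ((N * q ^ 2 + 4 / (1 / T) ^ 2 * Real.exp (-ac * n)) / T)) := by
  have hη : 0 < 1 / T := by positivity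
  obtain ⟨W, hW⟩ : ∃ W, W = (N * q ^ 2 + 4 / (1 / T) ^ 2 * Real.exp (-ac * n)) / T := ⟨_, rfl⟩
  have hN0 : 0 ≤ N := by
    rw [hN]
    positivity
  have hW0 : 0 ≤ W := by
    rw [hW]
    positivity
  obtain ⟨A, hA⟩ : ∃ A : Set (Site d → ℝ), A = {V | ¬ ∀ y ∈ box (0 : Site d) n,
      2 * L < sd 0 y → ∀ F ∈ Set.Icc (a - 2 * h) (b + 2 * h),
        FGood V L 0 F μ ∨ FGood V L y F μ} := ⟨_, rfl⟩
  have hPA := prob_bound htbp ν _ _ C μ hB L n
  rw [← hA, ← hN] at hPA
  have hpt : ∀ V : Site d → ℝ, spread V T R (Set.Ioo a b) ≤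
      (toMeasurable (PP d ν) A).indicator (fun _ => ENNReal.ofReal Real.pi) V +
        ENNReal.ofReal (max (b - a) 0 * W) := by
    intro V
    by_cases hV : V ∈ toMeasurable (PP d ν) A
    · rw [Set.indicator_of_mem hV]
      exact (htot d V T R _ hT).trans le_self_add
    · rw [Set.indicator_of_notMem hV, zero_add]
      have hV2 : V ∉ A := fun h' => hV (subset_toMeasurable _ _ h')
      rw [hA] at hV2
      have hgood : ∀ y ∈ box (0 : Site d) n, 2 * L < sd 0 y →
          ∀ F ∈ Set.Icc (a - 2 * h) (b + 2 * h), FGood V L 0 F μ ∨ FGood V L y F μ :=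
        not_not.1 hV2
      unfold spread
      calc _ ≤ ∫⁻ _E in Set.Ioo a b, ENNReal.ofReal W := by
            apply setLIntegral_mono' measurableSet_Ioo
            intro E hE
            rw [hW]
            apply det_bound hafv hcth hdlb V μ h E (1 / T) ac κ N q T R L n hd hT hη h8 hac hct
              hκ hκh hN hLR hLn _ hq
            intro y hy hyL F hF
            apply hgood y hy hyL F
            rw [abs_le] at hF
            exact ⟨by linarith [hE.1, hF.1], by linarith [hE.2, hF.2]⟩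
        _ = ENNReal.ofReal W * ENNReal.ofReal (b - a) := by
            rw [setLIntegral_const, Real.volume_Ioo]
        _ ≤ ENNReal.ofReal W * ENNReal.ofReal (max (b - a) 0) := by
            gcongr
            exact le_max_left _ _
        _ = _ := by
            rw [← ENNReal.ofReal_mul hW0, mul_comm]
  calc ∫⁻ V, spread V T R (Set.Ioo a b) ∂(PP d ν) ≤
      ∫⁻ V, ((toMeasurable (PP d ν) A).indicator (fun _ => ENNReal.ofReal Real.pi) V +
        ENNReal.ofReal (max (b - a) 0 * W)) ∂(PP d ν) := lintegral_mono hpt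
    _ = ENNReal.ofReal Real.pi * PP d ν A + ENNReal.ofReal (max (b - a) 0 * W) := by
        rw [lintegral_add_right _ measurable_const,
          lintegral_indicator_const (measurableSet_toMeasurable _ _), measure_toMeasurable,
          lintegral_const, measure_univ, mul_one]
    _ ≤ ENNReal.ofReal Real.pi * ENNReal.ofReal (N * (5 * |C| * (2 * L + 1) ^ (3 * d) *
          Real.exp (-μ * L))) + ENNReal.ofReal (max (b - a) 0 * W) := by
        gcongr
    _ = _ := by
        rw [← ENNReal.ofReal_mul Real.pi_pos.le, ← ENNReal.ofReal_add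
          (by have := Real.pi_pos; positivity)
          (mul_nonneg (le_max_right _ _) hW0), hW]

/-! ### the choice of the parameters -/

theorem ins (htbp : TbpStmt) (htot : TotStmt) (hcth : CthStmt) (hafv : AfvStmt)
    (hdlb : DlbStmt) : InsStmt := by
  intro d ν _ a b h C μ hd hμ hh hB β₀ k hβ₀
  obtain ⟨β, hβdef⟩ : ∃ β, β = min β₀ 1 := ⟨_, rfl⟩
  have hβ : 0 < β := by
    rw [hβdef]
    exact lt_min hβ₀ one_pos
  have hβ1 : β ≤ 1 := by
    rw [hβdef]
    exact min_le_right _ _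
  have hββ : β ≤ β₀ := by
    rw [hβdef]
    exact min_le_left _ _
  have hd0 : (0 : ℝ) < d := by exact_mod_cast hd
  -- the parameters
  let n : ℝ → ℕ := fun T => ⌈T ^ 2⌉₊
  let L : ℝ → ℕ := fun T => ⌊T ^ β / 8⌋₊
  let ac : ℝ → ℝ := fun T => 1 / (8 * d * T)
  let κ : ℝ → ℝ := fun T => 2 * d * (2 * L T + 1) ^ d * Real.exp (-μ * L T)
  let N : ℝ → ℝ := fun T => (2 * n T + 1) ^ d
  let q : ℝ → ℝ := fun T => N T * κ T / (1 / T) +
      3 * ((N T + 1) ^ 2 * κ T / √(κ T) + 4 * √(κ T) / h ^ 2) +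
      3 / h * Real.exp (-h / (4 * (1 / T))) + 4 * d / (1 / T) ^ 2 * Real.exp (-ac T * n T)
  -- elementary inequalities
  have hX1 : ∀ T : ℝ, 1 ≤ T → T ^ β ≤ T := fun T hT => by
    have := Real.rpow_le_rpow_of_exponent_le hT hβ1
    rwa [Real.rpow_one] at this
  have hL1 : ∀ T : ℝ, 0 ≤ T → (L T : ℝ) ≤ T ^ β / 8 := fun T hT =>
    Nat.floor_le (by have := Real.rpow_nonneg hT β; positivity)
  have hL2 : ∀ T : ℝ, T ^ β / 8 - 1 ≤ (L T : ℝ) := fun T => (Nat.sub_one_lt_floor _).le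
  have hL3 : ∀ T : ℝ, 2 ≤ T → (2 * L T + 1 : ℝ) ≤ T := fun T hT => by
    have h1 := hL1 T (by linarith)
    have h2 := hX1 T (by linarith)
    linarith
  have hn1 : ∀ T : ℝ, T ^ 2 ≤ n T := fun T => Nat.le_ceil _
  have hn2 : ∀ T : ℝ, 1 ≤ T → (2 * n T + 1 : ℝ) ≤ 5 * T ^ 2 := fun T hT => by
    have h1 : (n T : ℝ) < T ^ 2 + 1 := Nat.ceil_lt_add_one (by positivity)
    nlinarith
  have hN1 : ∀ T : ℝ, 1 ≤ T → N T ≤ 5 ^ d * T ^ (2 * d) := fun T hT => by
    have := pow_le_pow_left₀ (by positivity) (hn2 T hT) d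
    rwa [mul_pow, ← pow_mul] at this
  have hN0 : ∀ T : ℝ, 0 ≤ N T := fun T => by positivity
  have hκ0 : ∀ T : ℝ, 0 < κ T := fun T => by positivity
  have hexpL : ∀ T : ℝ, Real.exp (-μ * L T) ≤ Real.exp μ * Real.exp (-(μ / 8) * T ^ β) := by
    intro T
    rw [← Real.exp_add]
    apply Real.exp_le_exp.2
    have := hL2 T
    nlinarith
  have hexpn : ∀ T : ℝ, 0 < T → Real.exp (-ac T * n T) ≤ Real.exp (-(1 / (8 * d)) * T ^ (1 : ℝ)) := by
    intro T hT
    apply Real.exp_le_exp.2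
    rw [Real.rpow_one]
    have h1 : 1 / (8 * d * T) * T ^ 2 ≤ ac T * n T :=
      mul_le_mul_of_nonneg_left (hn1 T) (by positivity)
    have h2 : 1 / (8 * d * T) * T ^ 2 = 1 / (8 * d) * T := by
      field_simp
    linarith
  -- small quantities
  have hsX : Sm (fun T => Real.exp (-(μ / 8) * T ^ β)) := sm_exp _ _ (by positivity) hβ
  have hsκ : Sm κ := by
    apply (hsX.cpow (2 * d * Real.exp μ) (by positivity) d).mono
    filter_upwards [eventually_ge_atTop (2 : ℝ)] with T hT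
    have h1 := pow_le_pow_left₀ (by positivity) (hL3 T hT) d
    have h2 := hexpL T
    calc κ T ≤ 2 * d * T ^ d * (Real.exp μ * Real.exp (-(μ / 8) * T ^ β)) := by
          show 2 * (d : ℝ) * (2 * L T + 1) ^ d * Real.exp (-μ * L T) ≤ _
          gcongr
      _ = _ := by ring
  have hsr : Sm (fun T => √(κ T)) := hsκ.sqrt
  have hsn : Sm (fun T => Real.exp (-ac T * n T)) := by
    apply (sm_exp (1 / (8 * d)) 1 (by positivity) one_pos).mono
    filter_upwards [eventually_gt_atTop (0 : ℝ)] with T hT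
    exact hexpn T hT
  have hsh : Sm (fun T => Real.exp (-h / (4 * (1 / T)))) := by
    apply (sm_exp (h / 4) 1 (by positivity) one_pos).mono
    filter_upwards [eventually_gt_atTop (0 : ℝ)] with T hT
    apply Real.exp_le_exp.2
    rw [Real.rpow_one]
    apply le_of_eq
    field_simp
  have hsq : Sm q := by
    have t1 := hsκ.cpow (5 ^ d) (by positivity) (2 * d + 1)
    have t2 := hsr.cpow (12 * (5 ^ d) ^ 2) (by positivity) (4 * d)
    have t3 := hsr.cpow (12 / h ^ 2) (by positivity) 0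
    have t4 := hsh.cpow (3 / h) (by positivity) 0
    have t5 := hsn.cpow (4 * d) (by positivity) 2
    apply ((((t1.add t2).add t3).add t4).add t5).mono
    filter_upwards [eventually_ge_atTop (2 : ℝ)] with T hT
    have hT0 : 0 < T := by linarith
    have hNT := hN1 T (by linarith)
    have hk := (hκ0 T).le
    have hr0 : 0 < √(κ T) := Real.sqrt_pos.2 (hκ0 T)
    have e1 : N T * κ T / (1 / T) ≤ 5 ^ d * T ^ (2 * d + 1) * κ T := by
      calc N T * κ T / (1 / T) = N T * (T * κ T) := by field_simp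
        _ ≤ (5 ^ d * T ^ (2 * d)) * (T * κ T) := by gcongr
        _ = _ := by ring
    have e2 : 3 * ((N T + 1) ^ 2 * κ T / √(κ T)) ≤ 12 * (5 ^ d) ^ 2 * T ^ (4 * d) * √(κ T) := by
      have h1 : (N T + 1) ^ 2 * κ T / √(κ T) = (N T + 1) ^ 2 * √(κ T) := by
        rw [mul_div_assoc, Real.div_sqrt]
      have h2 : N T + 1 ≤ 2 * (5 ^ d * T ^ (2 * d)) := by
        have h3 : (1 : ℝ) ≤ 5 ^ d * T ^ (2 * d) := by
          have h4 : (1 : ℝ) ≤ 5 ^ d := one_le_pow₀ (by norm_num)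
          have h5 : (1 : ℝ) ≤ T ^ (2 * d) := one_le_pow₀ (by linarith)
          nlinarith
        linarith
      have h3 : (N T + 1) ^ 2 ≤ (2 * (5 ^ d * T ^ (2 * d))) ^ 2 :=
        pow_le_pow_left₀ (by have := hN0 T; positivity) h2 2
      rw [h1]
      calc 3 * ((N T + 1) ^ 2 * √(κ T)) ≤ 3 * ((2 * (5 ^ d * T ^ (2 * d))) ^ 2 * √(κ T)) := by
            gcongr
        _ = 12 * (5 ^ d) ^ 2 * T ^ (4 * d) * √(κ T) := by ring
    have e3 : 3 * (4 * √(κ T) / h ^ 2) = 12 / h ^ 2 * T ^ 0 * √(κ T) := by ring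
    have e4 : 3 / h * Real.exp (-h / (4 * (1 / T))) =
      3 / h * T ^ 0 * Real.exp (-h / (4 * (1 / T))) := by ring
    have e5 : 4 * d / (1 / T) ^ 2 * Real.exp (-ac T * n T) =
        4 * d * T ^ 2 * Real.exp (-ac T * n T) := by field_simp
    show N T * κ T / (1 / T) + 3 * ((N T + 1) ^ 2 * κ T / √(κ T) + 4 * √(κ T) / h ^ 2) +
      3 / h * Real.exp (-h / (4 * (1 / T))) + 4 * d / (1 / T) ^ 2 * Real.exp (-ac T * n T) ≤ _
    rw [mul_add]
    linarith
  have hq0 : ∀ T : ℝ, 0 < T → 0 ≤ q T := fun T hT => by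
    have := hκ0 T
    have := hN0 T
    positivity
  have hsU : Sm (fun T => Real.pi * (N T * (5 * |C| * (2 * L T + 1) ^ (3 * d) *
      Real.exp (-μ * L T))) + max (b - a) 0 * ((N T * q T ^ 2 + 4 / (1 / T) ^ 2 *
        Real.exp (-ac T * n T)) / T)) := by
    have t1 := hsX.cpow (Real.pi * 5 ^ d * 5 * |C| * Real.exp μ)
      (by have := Real.pi_pos; positivity) (5 * d)
    have t2 := (hsq.mul hsq (by
      filter_upwards [eventually_gt_atTop (0 : ℝ)] with T hT
      exact hq0 T hT)).cpow (max (b - a) 0 * 5 ^ d) (by positivity) (2 * d)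
    have t3 := hsn.cpow (max (b - a) 0 * 4) (by positivity) 2
    apply ((t1.add t2).add t3).mono
    filter_upwards [eventually_ge_atTop (2 : ℝ)] with T hT
    have hT0 : 0 < T := by linarith
    have hNT := hN1 T (by linarith)
    have hqT := hq0 T hT0
    have hNT0 := hN0 T
    have hpi := Real.pi_pos
    have hmx : 0 ≤ max (b - a) 0 := le_max_right _ _
    have e1 : Real.pi * (N T * (5 * |C| * (2 * L T + 1) ^ (3 * d) * Real.exp (-μ * L T))) ≤
        Real.pi * 5 ^ d * 5 * |C| * Real.exp μ * T ^ (5 * d) *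
          Real.exp (-(μ / 8) * T ^ β) := by
      have h1 := pow_le_pow_left₀ (by positivity) (hL3 T hT) (3 * d)
      have h2 := hexpL T
      calc _ ≤ Real.pi * ((5 ^ d * T ^ (2 * d)) * (5 * |C| * T ^ (3 * d) *
            (Real.exp μ * Real.exp (-(μ / 8) * T ^ β)))) := by gcongr
        _ = _ := by ring
    have e2 : (N T * q T ^ 2 + 4 / (1 / T) ^ 2 * Real.exp (-ac T * n T)) / T ≤
        5 ^ d * T ^ (2 * d) * (q T * q T) + 4 * T ^ 2 * Real.exp (-ac T * n T) := by
      have h1 : 0 ≤ N T * q T ^ 2 + 4 / (1 / T) ^ 2 * Real.exp (-ac T * n T) := by positivity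
      refine (div_le_self h1 (by linarith)).trans ?_
      have h2 : 4 / (1 / T) ^ 2 * Real.exp (-ac T * n T) = 4 * T ^ 2 * Real.exp (-ac T * n T) := by
        field_simp
      rw [h2, pow_two (q T)]
      gcongr
    have e3 := mul_le_mul_of_nonneg_left e2 hmx
    calc _ ≤ _ := add_le_add e1 e3
      _ = _ := by ring
  -- conclusion
  obtain ⟨T₀, hT₀⟩ := eventually_atTop.1 ((hsU k).and ((hsκ 2).and
    ((eventually_ge_atTop (2 : ℝ)).and (eventually_ge_atTop (8 / h)))))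
  refine ⟨T₀, fun T hT => ?_⟩
  obtain ⟨hU, hκ2, hT2, hTh⟩ := hT₀ T hT
  have hT0 : 0 < T := by linarith
  have hTβ : 0 < T ^ β := Real.rpow_pos_of_pos hT0 _
  have h8 : 8 * (1 / T) ≤ h := by
    rw [mul_one_div, div_le_iff₀ hT0]
    rw [div_le_iff₀ hh] at hTh
    linarith
  have hac0 : 0 ≤ ac T := by
    show 0 ≤ 1 / (8 * (d : ℝ) * T)
    positivity
  have hct : 2 * d * (Real.exp (ac T) - 1) ≤ 1 / T / 2 := by
    have h1 : ac T ≤ 1 := by
      show 1 / (8 * (d : ℝ) * T) ≤ 1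
      rw [div_le_one (by positivity)]
      have : (1 : ℝ) ≤ d := by exact_mod_cast hd
      nlinarith
    have h2 := Real.abs_exp_sub_one_le (x := ac T) (by rw [abs_of_nonneg hac0]; exact h1)
    rw [abs_of_nonneg hac0] at h2
    have h3 := (le_abs_self _).trans h2
    calc 2 * d * (Real.exp (ac T) - 1) ≤ 2 * d * (2 * ac T) := by gcongr
      _ = 1 / T / 2 := by
          show 2 * (d : ℝ) * (2 * (1 / (8 * d * T))) = _
          field_simp
          norm_num
  have hκh : 2 * √(κ T) ≤ h := by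
    have h1 : √(κ T) ≤ 1 / T := by
      apply Real.sqrt_le_iff.2
      refine ⟨by positivity, hκ2.trans (le_of_eq ?_)⟩
      rw [Real.rpow_neg hT0.le, Real.rpow_two]
      field_simp
    linarith [show 0 < 1 / T by positivity]
  have hLR : 2 * (L T : ℝ) < T ^ β := by
    have := hL1 T hT0.le
    linarith
  have hLn : 2 * L T ≤ n T := by
    have h1 := hL1 T hT0.le
    have h2 := hX1 T (by linarith)
    have h3 := hn1 T
    have : (2 * (L T : ℝ)) ≤ n T := by nlinarith
    exact_mod_cast this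
  have hmain := ins_T htbp htot hcth hafv hdlb ν a b h C μ hd hB (ac T) (κ T) (N T) (q T) T
    (T ^ β) (L T) (n T) hT0 h8 hac0 hct rfl hκh rfl hLR hLn rfl
  refine le_trans (lintegral_mono fun V => ?_) (hmain.trans (ENNReal.ofReal_le_ofReal hU))
  unfold spread
  apply lintegral_mono
  intro E
  apply ENNReal.tsum_le_tsum
  intro x
  by_cases hx : T ^ β₀ ≤ (sd 0 x : ℝ)
  · have h1 : T ^ β ≤ T ^ β₀ := Real.rpow_le_rpow_of_exponent_le (by linarith) hββ
    rw [if_pos hx, if_pos (h1.trans hx)]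
  · rw [if_neg hx]
    exact zero_le

end Pool.Agent.Mob.H69
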